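import Mathlib
import Pool.Agent.H239R2.LogAsym2
set_option autoImplicit false
open Finset Filter Topology

namespace Pool.Agent.Results.MP_72bf7f_co.SharpAsymptotics

open H239Schein

/-- `A` is the Boolean sum of `k` matrices `u vᵀ`: the sum of Booleans is `⊔`, the product is
`⊓`. -/
def IsBooleanSum {n : ℕ} (A : Matrix (Fin n) (Fin n) Bool) (k : ℕ) : Prop :=
  ∃ u v : Fin k → Fin n → Bool, ∀ i j, A i j = Finset.univ.sup fun l => u l i ⊓ v l j

/-- The Schein rank (Boolean rank): the least `k` such that `A` is the Boolean sum of `k`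
matrices `u vᵀ`. -/
noncomputable def scheinRank {n : ℕ} (A : Matrix (Fin n) (Fin n) Bool) : ℕ :=
  sInf {k | IsBooleanSum A k}

/-- The probability `p_n` that a uniformly random `n × n` Boolean matrix has Schein rank
less than `n`. -/
noncomputable def prob (n : ℕ) : ℝ :=
  (Nat.card {A : Matrix (Fin n) (Fin n) Bool // scheinRank A < n} : ℝ) / 2 ^ (n ^ 2)

/-- The explicit function `f(n)`. -/
noncomputable def mainTerm (n : ℕ) : ℝ :=
  2 * n / 2 ^ n * ∑ z ∈ Finset.range (n + 1), ∑ j ∈ Finset.range n,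
    (n.choose z : ℝ) * ((n - 1).choose j) * (1 / 2) ^ (j * z) * (1 - (1 / 2) ^ j) ^ (n - z) *
      (1 - (1 / 2) ^ z) ^ (n - 1 - j)

lemma bool_sup_iff {k : ℕ} (f : Fin k → Bool) : univ.sup f = true ↔ ∃ l, f l = true := by
  have h := Finset.le_sup_iff (s := (univ : Finset (Fin k))) (f := f) (a := true) (by decide)
  constructor
  · intro h1
    obtain ⟨b, _, hb⟩ := h.1 h1.ge
    exact ⟨b, le_antisymm (Bool.le_true _) hb⟩
  · rintro ⟨l, hl⟩
    exact le_antisymm (Bool.le_true _) (h.2 ⟨l, mem_univ _, hl.ge⟩)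

lemma isBooleanSum_iff {n k : ℕ} (A : Matrix (Fin n) (Fin n) Bool) :
    IsBooleanSum A k ↔ Cov A k := by
  classical
  constructor
  · rintro ⟨u, v, h⟩
    refine ⟨fun l => univ.filter (fun i => u l i = true), fun l => univ.filter (fun c => v l c = true),
      fun i c => ?_⟩
    rw [h, bool_sup_iff]
    simp
  · rintro ⟨U, V, h⟩
    refine ⟨fun l i => decide (i ∈ U l), fun l c => decide (c ∈ V l), fun i c => ?_⟩
    rw [Bool.eq_iff_iff, bool_sup_iff, h]
    simp

lemma cov_mono {R C : Type*} [Fintype R] [DecidableEq R] [Fintype C] [DecidableEq C]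
    (A : R → C → Bool) {k k' : ℕ} (hk : k ≤ k') (h : Cov A k) : Cov A k' := by
  obtain ⟨U, V, h⟩ := h
  refine ⟨fun l => if hl : l.1 < k then U ⟨l.1, hl⟩ else ∅,
    fun l => if hl : l.1 < k then V ⟨l.1, hl⟩ else ∅, fun i c => ?_⟩
  rw [h]
  constructor
  · rintro ⟨l, h1, h2⟩
    refine ⟨⟨l.1, by omega⟩, ?_, ?_⟩
    · simpa using h1
    · simpa using h2
  · rintro ⟨l, h1, h2⟩
    by_cases hl : l.1 < k
    · simp only [hl, dif_pos] at h1 h2
      exact ⟨⟨l.1, hl⟩, h1, h2⟩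
    · simp [hl] at h1

lemma cov_self {m n : ℕ} (A : Fin m → Fin n → Bool) : Cov A m := by
  classical
  refine ⟨fun l => {l}, fun l => univ.filter (fun c => A l c = true), fun i c => ?_⟩
  simp

lemma scheinRank_lt_iff {m : ℕ} (A : Matrix (Fin (m + 1)) (Fin (m + 1)) Bool) :
    scheinRank A < m + 1 ↔ Cov A m := by
  constructor
  · intro h
    have hne : {k | IsBooleanSum A k}.Nonempty := ⟨m + 1, (isBooleanSum_iff A).2 (cov_self A)⟩
    have h1 : IsBooleanSum A (scheinRank A) := Nat.sInf_mem hne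
    exact cov_mono A (by omega) ((isBooleanSum_iff A).1 h1)
  · intro h
    have h1 : scheinRank A ≤ m := Nat.sInf_le ((isBooleanSum_iff A).2 h)
    omega

lemma prob_succ (m : ℕ) : prob (m + 1) = (covCnt m : ℝ) / 2 ^ ((m + 1) ^ 2) := by
  unfold prob covCnt
  rw [← cnt_eq_natCard]
  congr 2
  exact cnt_congr (fun A => scheinRank_lt_iff A)

lemma mainTerm_eq (n : ℕ) : mainTerm n = 2 * n / 2 ^ n * Ef n := rfl

lemma mainTerm_succ (m : ℕ) : mainTerm (m + 1) =
    (2 * ((m:ℝ) + 1) * spanPairs m (m + 1)) / 2 ^ ((m + 1) ^ 2) := by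
  rw [mainTerm_eq, spanPairs_Ef]
  have h1 : (2:ℝ) ^ ((m + 1) ^ 2) = 2 ^ (m + 1) * 2 ^ (m * (m + 1)) := by
    rw [← pow_add]; congr 1; ring
  rw [h1]
  push_cast
  have h2 : (2:ℝ) ^ (m * (m + 1)) ≠ 0 := by positivity
  have h3 : (2:ℝ) ^ (m + 1) ≠ 0 := by positivity
  field_simp

lemma mainTerm_pos (m : ℕ) : 0 < mainTerm (m + 1) := by
  rw [mainTerm_eq]
  have := Ef_pos m
  positivity

theorem prob_div_mainTerm : Tendsto (fun n => prob n / mainTerm n) atTop (𝓝 1) := by
  rw [← tendsto_add_atTop_iff_nat 1]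
  refine ratio_tendsto.congr (fun m => ?_)
  rw [prob_succ, mainTerm_succ]
  have h1 : (2:ℝ) ^ ((m + 1) ^ 2) ≠ 0 := by positivity
  rw [div_div_div_cancel_right₀ h1]

lemma mainTerm_tendsto : Tendsto mainTerm atTop (𝓝 0) := by
  rw [← tendsto_add_atTop_iff_nat 1]
  have h1 : ∀ᶠ m : ℕ in atTop, mainTerm (m + 1) ≤ 6 * ((((m + 1 : ℕ) : ℝ)) ^ 1 * (7/12) ^ (m + 1)) := by
    filter_upwards [eventually_ge_atTop 10000] with m hm
    have h2 := spanPairs_le m (m + 1) (by omega) (by omega)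
    rw [mainTerm_succ]
    have h3 : (2:ℝ) ^ ((m + 1) ^ 2) = 2 ^ (m + 1) * 2 ^ (m * (m + 1)) := by
      rw [← pow_add]; congr 1; ring
    have h4 : (0:ℝ) < 2 ^ (m * (m + 1)) := by positivity
    rw [div_le_iff₀ (by positivity), h3]
    have h5 : (7/6 : ℝ) ^ (m + 1) = (7/12) ^ (m + 1) * 2 ^ (m + 1) := by
      rw [← mul_pow]; norm_num
    rw [h5] at h2
    push_cast
    calc 2 * ((m:ℝ) + 1) * (spanPairs m (m + 1) : ℝ) ≤
        2 * ((m:ℝ) + 1) * (3 * ((7/12) ^ (m + 1) * 2 ^ (m + 1)) * 2 ^ (m * (m + 1))) := by gcongr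
      _ = _ := by ring
  have h2 : Tendsto (fun m : ℕ => 6 * ((((m + 1 : ℕ) : ℝ)) ^ 1 * (7/12) ^ (m + 1))) atTop (𝓝 0) := by
    have h3 := (tendsto_pow_const_mul_const_pow_of_abs_lt_one 1
      (show |(7/12 : ℝ)| < 1 by rw [abs_of_pos] <;> norm_num)).const_mul 6
    rw [mul_zero] at h3
    exact (tendsto_add_atTop_iff_nat 1).2 h3
  refine tendsto_of_tendsto_of_tendsto_of_le_of_le' tendsto_const_nhds h2 ?_ h1
  exact Eventually.of_forall (fun m => (mainTerm_pos m).le)

theorem prob_tendsto : Tendsto prob atTop (𝓝 0) := by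
  have h1 := prob_div_mainTerm.mul mainTerm_tendsto
  rw [mul_zero] at h1
  refine h1.congr' ?_
  filter_upwards [eventually_ge_atTop 1] with n hn
  obtain ⟨m, rfl⟩ : ∃ m, n = m + 1 := ⟨n - 1, by omega⟩
  have := (mainTerm_pos m).ne'
  field_simp

theorem log_prob : (fun n : ℕ => Real.logb 2 (prob n) + n - (Real.logb 2 n) ^ 2) =O[atTop]
    fun n : ℕ => Real.logb 2 n * Real.logb 2 (Real.logb 2 n) := by
  rw [Asymptotics.isBigO_iff]
  refine ⟨20, ?_⟩
  have h1 : ∀ᶠ n : ℕ in atTop, prob n / mainTerm n ∈ Set.Ioo (1/2 : ℝ) 2 :=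
    prob_div_mainTerm.eventually (Ioo_mem_nhds (by norm_num) (by norm_num))
  filter_upwards [h1, eventually_ge_atTop (2 ^ 16)] with n h1 hn
  have hE1 := Ef_ge n hn
  have hE2 := Ef_le n (le_trans (by norm_num) hn)
  have hn' : (2:ℝ) ^ 16 ≤ n := by exact_mod_cast hn
  have hn1 : 1 ≤ n := le_trans (by norm_num) hn
  obtain ⟨m, hm⟩ : ∃ m, n = m + 1 := ⟨n - 1, by omega⟩
  clear hn
  have hEp : 0 < Ef n := by rw [hm]; exact Ef_pos m
  have hMp : 0 < mainTerm n := by rw [hm]; exact mainTerm_pos m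
  have hn0 : (0:ℝ) < n := by exact_mod_cast hn1
  set L := Real.logb 2 n with hL
  have hL16 : 16 ≤ L := by
    rw [hL, Real.le_logb_iff_rpow_le (by norm_num) hn0]
    have : (2:ℝ) ^ (16:ℝ) = (2:ℝ) ^ 16 := by
      rw [show (16:ℝ) = ((16:ℕ):ℝ) by norm_num, Real.rpow_natCast]
    rw [this]; exact hn'
  set M := Real.logb 2 L with hM
  have hM1 : 1 ≤ M := by
    rw [hM, Real.le_logb_iff_rpow_le (by norm_num) (by linarith)]
    rw [Real.rpow_one]; linarith
  have hE2' : Real.logb 2 (Ef n) ≤ 3 + 2 * L + L ^ 2 := by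
    have h2 : Real.logb 2 (Ef n) ≤ Real.logb 2 (5 * (n:ℝ) ^ 2 * (2:ℝ) ^ (L ^ 2)) :=
      Real.logb_le_logb_of_le (by norm_num) hEp hE2
    have h3 : Real.logb 2 (5 * (n:ℝ) ^ 2 * (2:ℝ) ^ (L ^ 2)) = Real.logb 2 5 + 2 * L + L ^ 2 := by
      rw [Real.logb_mul (by positivity) (by positivity), Real.logb_mul (by norm_num) (by positivity),
        Real.logb_pow, Real.logb_rpow (by norm_num) (by norm_num)]
      push_cast; ring
    have h4 : Real.logb 2 5 ≤ 3 := by
      rw [Real.logb_le_iff_le_rpow (by norm_num) (by norm_num)]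
      have : (2:ℝ) ^ (3:ℝ) = (2:ℝ) ^ 3 := by
        rw [show (3:ℝ) = ((3:ℕ):ℝ) by norm_num, Real.rpow_natCast]
      rw [this]; norm_num
    linarith
  -- decomposition of the logarithm
  have hq0 : 0 < prob n / mainTerm n := lt_trans (by norm_num) h1.1
  have hp : prob n = (prob n / mainTerm n) * mainTerm n := by field_simp
  have hlog : Real.logb 2 (prob n) = Real.logb 2 (prob n / mainTerm n) +
      (1 + L - n + Real.logb 2 (Ef n)) := by
    have h2 : Real.logb 2 (mainTerm n) = 1 + L - n + Real.logb 2 (Ef n) := by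
      rw [mainTerm_eq, Real.logb_mul (by positivity) hEp.ne', Real.logb_div (by positivity)
        (by positivity), Real.logb_mul (by norm_num) (by positivity), Real.logb_pow,
        Real.logb_self_eq_one (by norm_num)]
      ring
    rw [← h2, ← Real.logb_mul hq0.ne' hMp.ne', ← hp]
  have hq1 : Real.logb 2 (prob n / mainTerm n) ≤ 1 := by
    rw [Real.logb_le_iff_le_rpow (by norm_num) hq0, Real.rpow_one]
    exact h1.2.le
  have hq2 : -1 ≤ Real.logb 2 (prob n / mainTerm n) := by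
    rw [Real.le_logb_iff_rpow_le (by norm_num) hq0, Real.rpow_neg_one]
    have := h1.1
    linarith
  have hLM : L ≤ L * M := by nlinarith
  rw [hlog, Real.norm_eq_abs, Real.norm_eq_abs, abs_of_nonneg (by nlinarith : 0 ≤ L * M), abs_le]
  constructor
  · nlinarith
  · nlinarith

/-- **Schein rank of a random Boolean matrix.** With `p_n` the probability that a uniformly random
`n × n` Boolean matrix has Schein rank `< n`: `p_n → 0`, `p_n ∼ f(n)` for the explicit `f`, and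
`log₂ p_n = - n + (log₂ n)² + O(log₂ n · log₂ log₂ n)`. -/
theorem result :
    Tendsto prob atTop (𝓝 0) ∧
    Tendsto (fun n => prob n / mainTerm n) atTop (𝓝 1) ∧
    (fun n : ℕ => Real.logb 2 (prob n) + n - (Real.logb 2 n) ^ 2) =O[atTop]
      fun n : ℕ => Real.logb 2 n * Real.logb 2 (Real.logb 2 n) :=
  ⟨prob_tendsto, prob_div_mainTerm, log_prob⟩

end Pool.Agent.Results.MP_72bf7f_co.SharpAsymptotics
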